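import Pool.Agent.Helper66.SG4.Main

/-!
# The strong chromatic index of graphs of large maximum degree
-/

set_option autoImplicit false

namespace Pool.Agent.Results.MP_7b9cc4_co.FourThirdsAsymptotic

open Finset

/-- `c` is a strong edge colouring of `G` (the colour of the edge `uv` is `c u v = c v u`): any two
distinct edges which share an endpoint or have adjacent endpoints get different colours. -/
def IsStrongColouring {V : Type} (G : SimpleGraph V) (c : V → V → ℕ) : Prop :=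
  (∀ u v : V, G.Adj u v → c u v = c v u) ∧
    ∀ u v x y : V, G.Adj u v → G.Adj x y →
      ¬ ((u = x ∧ v = y) ∨ (u = y ∧ v = x)) →
      (u = x ∨ u = y ∨ v = x ∨ v = y ∨
        G.Adj u x ∨ G.Adj u y ∨ G.Adj v x ∨ G.Adj v y) →
      c u v ≠ c x y

/-- For every `ε > 0` there is `Δ₀` such that every finite graph with maximum degree at most `Δ`,
where `Δ ≥ Δ₀`, has a strong edge colouring with at most `(4/3 + ε) Δ²` colours. -/
theorem result (ε : ℝ) (hε : 0 < ε) : ∃ Δ₀ : ℕ, ∀ (V : Type) [Fintype V] [DecidableEq V]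
    (G : SimpleGraph V) [DecidableRel G.Adj] (Δ : ℕ), Δ₀ ≤ Δ → G.maxDegree ≤ Δ →
      ∃ c : V → V → ℕ, IsStrongColouring G c ∧
        ∀ u v : V, G.Adj u v → (c u v : ℝ) + 1 ≤ (4 / 3 + ε) * (Δ : ℝ) ^ 2 := by
  obtain ⟨Δ₀, h⟩ := SG4.main_rel4 ε hε
  refine ⟨Δ₀, fun V _ _ G _ Δ hΔ hmax => ?_⟩
  obtain ⟨c, h1, h2⟩ := h V G.Adj Δ (fun x y h => h.symm) (fun x => G.loopless.irrefl x) hΔ
    (fun v => by
      refine le_trans (le_of_eq ?_) ((G.degree_le_maxDegree v).trans hmax)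
      rw [← SimpleGraph.card_neighborFinset_eq_degree]
      congr 1
      ext w
      simp [SG.nb])
  refine ⟨fun u v => c s(u, v), ⟨fun u v _ => by show c s(u, v) = c s(v, u); rw [Sym2.eq_swap], ?_⟩, h1⟩
  intro u v x y huv hxy hne hor
  refine h2 u v x y huv hxy ?_ ?_
  · intro h
    rcases Sym2.eq_iff.1 h with h | h
    · exact hne (Or.inl h)
    · exact hne (Or.inr h)
  · have hu : u ∈ s(u, v) := Sym2.mem_mk_left u v
    have hv : v ∈ s(u, v) := Sym2.mem_mk_right u v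
    have hx : x ∈ s(x, y) := Sym2.mem_mk_left x y
    have hy : y ∈ s(x, y) := Sym2.mem_mk_right x y
    rcases hor with h | h | h | h | h | h | h | h
    · exact ⟨u, hu, x, hx, Or.inl h⟩
    · exact ⟨u, hu, y, hy, Or.inl h⟩
    · exact ⟨v, hv, x, hx, Or.inl h⟩
    · exact ⟨v, hv, y, hy, Or.inl h⟩
    · exact ⟨u, hu, x, hx, Or.inr h⟩
    · exact ⟨u, hu, y, hy, Or.inr h⟩
    · exact ⟨v, hv, x, hx, Or.inr h⟩
    · exact ⟨v, hv, y, hy, Or.inr h⟩

end Pool.Agent.Results.MP_7b9cc4_co.FourThirdsAsymptotic
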