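import Pool.Agent.Helper60.SX.Run

/-!
# The fractional strong chromatic index of a graph of maximum degree `Δ` is at most `(4Δ² - 1)/3`
-/

set_option autoImplicit false

namespace Pool.Agent.Results.MP_7b9cc4_co.FractionalFourThirds

open Finset Pool.Agent.Helper60.SX
open scoped Classical

/-- `M` is an induced matching of `G`: a set of edges, any two of which are disjoint and not
joined by an edge of `G` (every endpoint of one is different from and not adjacent to every
endpoint of the other). -/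
def IsInducedMatching {V : Type} (G : SimpleGraph V) (M : Finset (Sym2 V)) : Prop :=
  (∀ e ∈ M, e ∈ G.edgeSet) ∧
    ∀ e ∈ M, ∀ f ∈ M, e ≠ f → ∀ u ∈ e, ∀ v ∈ f, u ≠ v ∧ ¬ G.Adj u v

/-- The fractional strong chromatic index of `G` is at most `R`: there are nonnegative weights
`p M` of total at most `R` on the sets of edges, which vanish on the sets that are not induced
matchings, such that for every edge the sum of the weights of the sets containing it is at
least one. -/
def FracStrongIndexLE {V : Type} [Fintype V] (G : SimpleGraph V) (R : ℝ) : Prop :=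
  ∃ p : Finset (Sym2 V) → ℝ, (∀ M, 0 ≤ p M) ∧ (∀ M, p M ≠ 0 → IsInducedMatching G M) ∧
    ∑ M, p M ≤ R ∧ ∀ e ∈ G.edgeSet, 1 ≤ ∑ M ∈ univ.filter (fun M => e ∈ M), p M

theorem of_family {V : Type} [Fintype V] {G : SimpleGraph V} {R : ℝ} {I : Type} [Fintype I]
    (q : I → ℝ) (M : I → Finset (Sym2 V)) (hq : ∀ i, 0 ≤ q i)
    (hM : ∀ i, IsInducedMatching G (M i)) (hR : ∑ i, q i ≤ R)
    (hcov : ∀ e ∈ G.edgeSet, 1 ≤ ∑ i, if e ∈ M i then q i else 0) :
    FracStrongIndexLE G R := by
  refine ⟨fun N => ∑ i ∈ univ.filter (fun i => M i = N), q i, ?_, ?_, ?_, ?_⟩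
  · intro N
    exact Finset.sum_nonneg (fun i _ => hq i)
  · intro N hN
    obtain ⟨i, hi, _⟩ := Finset.exists_ne_zero_of_sum_ne_zero hN
    rw [← (mem_filter.1 hi).2]
    exact hM i
  · rw [Finset.sum_fiberwise]
    exact hR
  · intro e he
    refine (hcov e he).trans (le_of_eq ?_)
    rw [← Finset.sum_filter]
    rw [← Finset.sum_fiberwise_of_maps_to (s := univ.filter (fun i => e ∈ M i))
      (t := univ.filter (fun N => e ∈ N)) (g := M)]
    · refine Finset.sum_congr rfl (fun N hN => ?_)
      refine Finset.sum_congr ?_ (fun _ _ => rfl)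
      ext i
      simp only [mem_filter, mem_univ, true_and] at hN ⊢
      constructor
      · rintro ⟨_, h⟩
        exact h
      · intro h
        exact ⟨by rw [h]; exact hN, h⟩
    · intro i hi
      simpa using hi

/-- The total number of colours, with the weights of the palettes. -/
theorem weight_sum (D : ℕ) (hD : 1 ≤ D) :
    ∑ K ∈ range (2 * D), K * wt D K + 1 = 4 * D ^ 2 := by
  obtain ⟨m, hm⟩ : ∃ m, 2 * D = m + 1 := ⟨2 * D - 1, by omega⟩
  rw [hm, sum_range_succ]
  have h1 : ∀ K ∈ range m, K * wt D K = K * 2 := by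
    intro K hK
    rw [mem_range] at hK
    unfold wt
    rw [if_neg (by omega)]
  rw [sum_congr rfl h1, ← sum_mul, sum_range_id_mul_two]
  have h2 : wt D m = 3 := by
    unfold wt
    rw [if_pos (by omega)]
  rw [h2]
  have h3 : 4 * D ^ 2 = (m + 1) ^ 2 := by
    rw [← hm]
    ring
  rw [h3]
  rcases m with _ | m
  · rfl
  · rw [Nat.add_sub_cancel]
    ring

/-- A colour class. -/
noncomputable def cls {V : Type} (Df : Finset V) (P : V → V) (C : ℕ → V → ℕ) (K j : ℕ) :
    Finset (Sym2 V) :=
  (Df.filter (fun y => C K y = j)).image (fun y => s(P y, y))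

theorem cls_induced {V : Type} {G : SimpleGraph V} {Df : Finset V} {P : V → V}
    {C : ℕ → V → ℕ} (h : St G ∅ Df P C) (K j : ℕ) (hj : j < K) :
    IsInducedMatching G (cls Df P C K j) := by
  constructor
  · intro e he
    obtain ⟨y, hy, rfl⟩ := mem_image.1 he
    exact (h.adj y (mem_filter.1 hy).1).1
  · intro e he f hf hne u hu v hv
    obtain ⟨y, hy, rfl⟩ := mem_image.1 he
    obtain ⟨y', hy', rfl⟩ := mem_image.1 hf
    obtain ⟨hyD, hyj⟩ := mem_filter.1 hy
    obtain ⟨hyD', hyj'⟩ := mem_filter.1 hy'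
    have hyy : y ≠ y' := fun h => hne (by rw [h])
    obtain ⟨h1, h2, h3, h4⟩ := h.col K y hyD y' hyD' hyy (hyj.trans hyj'.symm) (hyj ▸ hj)
    have h5 := h.ind y hyD y' hyD'
    have h6 : P y ≠ y' := fun hc => (h.adj y hyD).2.2 (hc ▸ hyD')
    have h7 : P y' ≠ y := fun hc => (h.adj y' hyD').2.2 (hc ▸ hyD)
    rw [Sym2.mem_iff] at hu hv
    rcases hu with rfl | rfl <;> rcases hv with rfl | rfl
    · exact ⟨h1, h5⟩
    · exact ⟨h6, h3⟩
    · exact ⟨h7.symm, fun hadj => h4 hadj.symm⟩
    · exact ⟨hyy, h2⟩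

theorem cls_mem {V : Type} {Df : Finset V} {P : V → V} {C : ℕ → V → ℕ} {K : ℕ} {x y : V}
    (h : Cov Df P C K x y) : ∃ j : Fin K, s(x, y) ∈ cls Df P C K j := by
  rcases h with ⟨h1, h2, h3⟩ | ⟨h1, h2, h3⟩
  · refine ⟨⟨C K x, h3⟩, mem_image.2 ⟨x, mem_filter.2 ⟨h1, rfl⟩, ?_⟩⟩
    rw [h2]
    exact Sym2.eq_swap
  · refine ⟨⟨C K y, h3⟩, mem_image.2 ⟨y, mem_filter.2 ⟨h1, rfl⟩, ?_⟩⟩
    rw [h2]

theorem result (V : Type) [Fintype V] (G : SimpleGraph V) (D : ℕ) (hD : 1 ≤ D)
    (hdeg : ∀ x, (univ.filter (fun y => G.Adj x y)).card ≤ D) :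
    FracStrongIndexLE G ((4 * (D : ℝ) ^ 2 - 1) / 3) := by
  have hst : St G univ ∅ (fun x => x) (fun _ _ => 0) := by
    refine ⟨disjoint_empty_right _, ?_, ?_, ?_, ?_⟩
    · intro y hy
      exact absurd hy (notMem_empty y)
    · intro y hy
      exact absurd hy (notMem_empty y)
    · intro y hy
      exact absurd hy (notMem_empty y)
    · intro K y hy
      exact absurd hy (notMem_empty y)
  obtain ⟨Om, fOm, q, P, Df, C, hq0, hq1, hall, hcnt⟩ :=
    run G D hdeg _ univ ∅ (fun x => x) (fun _ _ => 0) le_rfl hst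
  refine of_family (I := Σ (_ : Om) (K : Fin (2 * D)), Fin (K : ℕ))
    (fun i => q i.1 * (wt D i.2.1 : ℝ) / 3)
    (fun i => cls (Df i.1) (P i.1) (C i.1) i.2.1 i.2.2) ?_ ?_ ?_ ?_
  · intro i
    exact div_nonneg (mul_nonneg (hq0 _) (Nat.cast_nonneg _)) (by norm_num)
  · intro i
    exact cls_induced (hall i.1).1 _ _ i.2.2.2
  · rw [Fintype.sum_sigma]
    have h1 : ∀ o : Om, ∑ y : (Σ K : Fin (2 * D), Fin (K : ℕ)), q o * (wt D y.1 : ℝ) / 3 =
        q o * ((4 * (D : ℝ) ^ 2 - 1) / 3) := by
      intro o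
      rw [Fintype.sum_sigma]
      have h2 : ∀ K : Fin (2 * D), ∑ _j : Fin (K : ℕ), q o * (wt D K : ℝ) / 3 =
          q o / 3 * (((K : ℕ) * wt D K : ℕ) : ℝ) := by
        intro K
        rw [sum_const, card_univ, Fintype.card_fin, nsmul_eq_mul]
        push_cast
        ring
      rw [sum_congr rfl (fun K _ => h2 K), ← mul_sum,
        Fin.sum_univ_eq_sum_range (fun K => ((K * wt D K : ℕ) : ℝ)) (2 * D)]
      have h3 := weight_sum D hD
      have h4 : (∑ K ∈ range (2 * D), ((K * wt D K : ℕ) : ℝ)) + 1 = 4 * (D : ℝ) ^ 2 := by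
        rw [← Nat.cast_sum]
        exact_mod_cast h3
      have h5 : (∑ K ∈ range (2 * D), ((K * wt D K : ℕ) : ℝ)) = 4 * (D : ℝ) ^ 2 - 1 := by
        linarith
      rw [h5]
      ring
    rw [sum_congr rfl (fun o _ => h1 o), ← sum_mul, hq1, one_mul]
  · intro e he
    induction e using Sym2.ind with
    | _ x y =>
      have hxy : G.Adj x y := he
      have h1 := hcnt x (mem_univ x) y (mem_univ y) hxy
      rw [Fintype.sum_sigma]
      have h2 : ∀ o : Om, q o * (cnt D (Df o) (P o) (C o) x y : ℝ) / 3 ≤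
          ∑ i : (Σ K : Fin (2 * D), Fin (K : ℕ)),
            if s(x, y) ∈ cls (Df o) (P o) (C o) i.1 i.2 then q o * (wt D i.1 : ℝ) / 3 else 0 := by
        intro o
        rw [Fintype.sum_sigma]
        have h3 : q o * (cnt D (Df o) (P o) (C o) x y : ℝ) / 3 =
            ∑ K : Fin (2 * D), if Cov (Df o) (P o) (C o) K x y then
              q o * (wt D K : ℝ) / 3 else 0 := by
          unfold cnt
          rw [Fin.sum_univ_eq_sum_range (fun K => if Cov (Df o) (P o) (C o) K x y then
              q o * (wt D K : ℝ) / 3 else 0) (2 * D)]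
          push_cast
          rw [mul_sum, sum_div]
          apply sum_congr rfl
          intro K _
          split_ifs <;> simp
        rw [h3]
        apply sum_le_sum
        intro K _
        have h0 : 0 ≤ q o * (wt D K : ℝ) / 3 :=
          div_nonneg (mul_nonneg (hq0 _) (Nat.cast_nonneg _)) (by norm_num)
        by_cases hc : Cov (Df o) (P o) (C o) K x y
        · rw [if_pos hc]
          obtain ⟨j, hj⟩ := cls_mem hc
          refine le_trans (le_of_eq ?_) (single_le_sum (f := fun j : Fin (K : ℕ) =>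
            if s(x, y) ∈ cls (Df o) (P o) (C o) K j then q o * (wt D K : ℝ) / 3 else 0)
            (fun j _ => ?_) (mem_univ j))
          · show _ = if s(x, y) ∈ cls (Df o) (P o) (C o) K j then q o * (wt D K : ℝ) / 3 else 0
            rw [if_pos hj]
          · show (0 : ℝ) ≤ if s(x, y) ∈ cls (Df o) (P o) (C o) K j then
              q o * (wt D K : ℝ) / 3 else 0
            split_ifs
            · exact h0
            · exact le_rfl
        · rw [if_neg hc]
          apply sum_nonneg
          intro j _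
          split_ifs
          · exact h0
          · exact le_rfl
      refine le_trans ?_ (sum_le_sum (fun o _ => h2 o))
      rw [← sum_div, le_div_iff₀ (by norm_num)]
      linarith

end Pool.Agent.Results.MP_7b9cc4_co.FractionalFourThirds
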